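import Pool.Agent.Helper44K9.TP.Main

/-!
# Galois representations for functorial products of cusp forms on `GL₂` whose Satake polynomials are
integral

For `n ≥ 3` the question is open for the algebraic cuspidal representations of `GL_n` which are not
regular. Among them are the functorial products
`Π = Sym ^ a₁ τ₁ ⊠ ⋯ ⊠ Sym ^ aᵣ τᵣ ⊠ Σ` with Archimedean parameter zero, where the `τⱼ` are Maass forms on
`GL₂` (which need not be algebraic themselves) and `Σ` is of Artin type: the self-dual cuspidal
representations of `GL₃`, the `Sym ^ 3 τ`, `Sym ^ 4 τ`, the tensor products `τ₁ ⊠ τ₂` on `GL₄`, the
`τ₁ ⊠ Sym ^ 2 τ₂` on `GL₆`. It is expected that the Satake polynomials of an algebraic `Π` with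
Archimedean parameter zero have coefficients in the ring of integers of a number field `E`, and that
the conjugate systems are automorphic too (Clozel). We study how far these two properties imply the
existence of the Galois representations, for arbitrary number fields `E` and arbitrary products.

For products of `r ≥ 2` forms the polynomials `P p` determine the adjoint parameters
`z₁(p), …, zᵣ(p)` (`z = β + β⁻¹`, `β` the quotient of the Satake parameters) only together: they are the
roots of a polynomial `f p` of degree `r` over `E`, and they generate a field which varies with `p`. So
neither the `τⱼ` nor their conjugates have eigenvalues in a fixed number field a priori, there is no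
numbering of the conjugates which is compatible with the Galois group, and some of them may be
tetrahedral or octahedral and others not.

**Theorem.** Let `Π` be a cuspidal automorphic representation of `GL_n` over the rational numbers, `n ≥ 3`,
unramified outside of `N`, with central character of finite order, and functorial from `r` forms on
`GL₂` in the way above. Suppose that the `P p` and the `f p` have coefficients in the ring of integers of
`E` and that the conjugates are automorphic of the same kind. Then

* either for all prime numbers `ℓ` and all embeddings of `E` into the algebraic closure of the field of
  `ℓ`-adic numbers there is a continuous semisimple `n`-dimensional representation of the absolute Galois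
  group of the field of rational numbers which corresponds to `Π` at ALL prime numbers not dividing `N`;
* or there are many prime numbers `p` such that two Satake parameters of `Π` at `p` have a quotient which
  is a primitive fifth root of unity: the sum of the `p ^ (-t)` over these `p` is infinite for all
  `t < 1 / 2`; and for `r = 1` the number `√5` is in `E` and `τ` is of icosahedral type, with the
  exact densities `1/4`, `1/3`, `1/60`, `1/5`, `1/5` of the five possible values of `z(p)`.

In particular: if only finitely many `p`, or only `O(x ^ (1/2 - ε))` numbers `p ≤ x`, have two Satake
parameters whose quotient is of order five, then `Π` has Galois representations for all `ℓ`.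

(The case `r = 1` is joint work with the author of `FunctorialLifts`, which it contains. For `n = 2` see
`IntegralHeckeEigenvalues`. For `GL₄` and `E ∩ ℝ = ℚ` see also `OrthogonalType`, where there are exact
densities but no other fields `E`, no mixed products, and only two forms.)

Idea of the proof. Suppose that no conjugate of `Π` is of Artin type. Let `I` be the nonempty set of all
`τⱼ ^ σ`, for all embeddings `σ`, which are not tetrahedral or octahedral. For them `Sym ^ 4` is cuspidal.
For every power `p ^ k` the product over `I` of the traces `q_i(p ^ k)` of `Sym ^ 4` is a rational integer:
the product over all `τⱼ ^ σ` is the norm of an integral symmetric function of the roots of `f p`, and the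
factors of the polyhedral ones are nonzero rational integers. So if no quotient at `p` has an order
divisible by five, then no factor vanishes, and the sum over `I` of `q_i(p ^ k) ^ 2 - 1` is a nonnegative
rational integer. If there is a quotient of order `5 m`, `m > 1`, but none of order `5`, then this sum is
positive for `k = 1`, although it may be negative for some `k ≥ 2`. Suppose that there are few `p` with a
quotient of order `5`. Then we apply Landau's lemma to the logarithm of the product over `I` of the
`L(s, Sym ^ 4 × Sym ^ 4) / ζ(s)`: the zeta function has no real zeros in `(0, 1)`, and the Rankin-Selberg
`L`-functions are holomorphic there. If the sum of all these terms converges for `s > s₀`, then so does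
the sum of the `p ^ (-s)` over the `p` with a quotient of order `5 m`, so the sum of the negative terms and
by Landau's lemma the sum of all terms converges for `s > max (t, 2 s₀ / 3)`; two steps lead to
`s > max (t, 4 / 9)`, which is less than `1 / 2`. Convergence at `s = 1` shows that `q_i(p) ^ 2 = 1` for
almost all `p`, so the known moments show that each `z_i(p)` is `-2` with density `1/3`; but then
`q_i(p ^ 2) = 5`, and the terms with `k = 2` diverge at `s = 1/2`.
-/

namespace Pool.Agent.Results.MP_ef641d_nt.FunctorialProducts

open Pool.Agent.Helper51K9.SP Pool.Agent.Helper44K9.TP Polynomial

theorem result {N n r : ℕ} (hN : 0 < N) (hn : 3 ≤ n) {E : Type} [Field E] [NumberField E]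
    (P f : GoodPrime N → E[X]) (h : IsProductFamily n r P f) :
    HasGaloisRepresentations n P ∨ (ManyOfOrderFive P ∧ ∀ z : GoodPrime N → E,
      (∀ p, f p = X - C (z p)) → IsOfIcosahedralType z ∧ ∃ x : E, x ^ 2 = 5) :=
  main hN (by omega) h

end Pool.Agent.Results.MP_ef641d_nt.FunctorialProducts
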