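import Pool.Agent.Helper7K9.GR.Main

/-!
# Galois representations for cusp forms on `GL₂` whose Hecke eigenvalues are algebraic integers

For `n = 2` the question is open exactly for the algebraic cuspidal representations which are not
regular and not attached to holomorphic forms of weight one: up to a twist those generated by Maass
forms of eigenvalue `1/4`. It is expected that the Hecke eigenvalues of such a representation are
algebraic integers in a number field `E`, and that the conjugate systems of eigenvalues are automorphic
too (Clozel). We prove, for an ARBITRARY number field `E`, that these two properties imply the
existence of the Galois representations, up to one exceptional type.

**Theorem.** Let `π` be a cuspidal automorphic representation of `GL₂` over the rational numbers,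
unramified outside of `N`, with central character `ω` of finite order. Suppose that the traces `a(p)`
and the determinants `ω(p)` of the Satake parameters of `π` at the prime numbers `p` not dividing `N`
are algebraic integers in a number field `E`, and that the conjugates `π ^ σ` are cuspidal automorphic
for all embeddings `σ` of `E`. Then

* either for all prime numbers `ℓ` and all embeddings of `E` into the algebraic closure of the field of
  `ℓ`-adic numbers (so for every identification of this field with the field of complex numbers) there
  is a continuous semisimple two-dimensional representation of the absolute Galois group of the field
  of rational numbers which corresponds to `π` at ALL prime numbers not dividing `N`;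
* or `π` is of icosahedral type: for all `p` not dividing `N` the number `y(p) = a(p) ^ 2 / ω(p)` is a
  rational integer or a root of `y ^ 2 - 3 y + 1`, and the numbers `|σ(a(p))| ^ 2` are equal to `0`,
  `1`, `4`, `(3 + √5) / 2`, `(3 - √5) / 2` with Dirichlet densities `1/4`, `1/3`, `1/60`, `1/5`, `1/5`,
  as for an icosahedral Galois representation.

In particular the first alternative holds if `E` does not contain the square root of five.

The case of the rational numbers is due to Sarnak, the case of quadratic fields to Brumley and, for
the icosahedral type, to Booker.

Idea of the proof. Suppose that no conjugate is of Artin type. Then the symmetric powers up to the
fourth one of the `π ^ σ` are cuspidal. Let `x = y - 1` and `q = x ^ 2 - x - 1`, the traces of the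
second and fourth symmetric powers. The mean value of `σ(q) ^ 2` is `1` for all `σ`. If `q(p) ≠ 0` for
all `p` then the average over `σ` of `σ(q(p)) ^ 2` is at least `1` by the inequality of the arithmetic
and geometric mean, so it is equal to `1` almost always; the remaining values `y = 0, 1, 2, 3` are
excluded by the third symmetric powers and an automorphism of the cyclotomic numbers which changes the
sign of the square root of three. If `q(p)` vanishes for some `p`, let `d` be the degree of the field
generated by all `y(p)`. A quadratic inequality between the averages of `x`, `x ^ 2` and `q` over all
conjugates, based on a lower bound of Siegel's kind for the traces of totally nonnegative algebraic
integers, and the mean values of these functions show `d < 4`, hence `d = 2`. Another such inequality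
shows that the fourth symmetric powers of the two conjugates are isomorphic, and then all values and
the densities can be computed from the first four moments.
-/

namespace Pool.Agent.Results.MP_ef641d_nt.IntegralHeckeEigenvalues

open Pool.Agent.Helper7K9.GR

theorem result {N : ℕ} (hN : 0 < N) {E : Type} [Field E] [NumberField E] (a ω : GoodPrime N → E)
    (h : IsCuspidalFamily a ω) :
    HasGaloisRepresentations a ω ∨ IsOfIcosahedralType a ω :=
  main hN h

end Pool.Agent.Results.MP_ef641d_nt.IntegralHeckeEigenvalues
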