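import Pool.Agent.Helper90K9.GD.Main

/-!
# Galois representations for cuspidal representations most of whose Hecke eigenvalues are integral

Sarnak proved that a Maass form all of whose Hecke eigenvalues are rational integers has Galois
representations. We prove that it is enough to know the integrality for a certain proportion of the
primes, with explicit constants, for `GL₂` and for the known functorial lifts from `GL₂`.

Let `Π` be a cuspidal automorphic representation of `GL_n` over the rational numbers, unramified outside
of `N` and with central character of finite order, of one of the following kinds: `n = 2` and `Π = τ` not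
dihedral; `n = 3` and `Π` self-dual up to a twist (`Π = Ad τ ⊗ χ`); `n = 4, 5` and `Π = Sym ^ (n - 1) τ ⊗ χ`;
`Π = Sym ^ a τ ⊠ Σ` with `Σ` of Artin type (as far as this is known to be automorphic). Let `z(p) = β + β⁻¹`,
where `β` is the quotient of the Satake parameters of `τ` at `p`. For `n = 2` we have
`z(p) = |a(p)| ^ 2 - 2`, where `a(p)` is the trace of the Satake parameter.

**Theorem.** (a) If `z(p)` is a rational integer different from `1` for a set of primes of upper Dirichlet
density greater than `5/6`, then for all prime numbers `ℓ` and all embeddings of the field of complex
numbers into the algebraic closure of the field of `ℓ`-adic numbers there is a continuous semisimple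
representation of the absolute Galois group of the field of rational numbers which corresponds to `Π`
at ALL prime numbers not dividing `N`. Nothing is assumed about conjugates of `Π` or about the other
primes.

(b) Suppose that the Satake polynomials of `Π` and the numbers `z(p)` are in a number field `E` and that
all the conjugates of `Π` are automorphic of the same kind. If `z(p)` is an algebraic integer, different
from `1` and not a root of `z ^ 2 + z - 1`, for a set of primes of upper Dirichlet density greater than
`7/8`, then the same conclusion holds. The constant does not depend on `E`.

For example (`n = 2`): all cuspidal `π`, not dihedral, such that more than `5/6` of the Hecke eigenvalues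
`a(p)` are rational integers, or integers of an imaginary quadratic field with `|a(p)| ^ 2 ≠ 3`. (For
dihedral `π` the Galois representations are known.)

Idea of the proof. If `Π` is not of Artin type, then the adjoint square and the fourth symmetric power
of `τ` are cuspidal, so the mean values of `x`, `x ^ 2`, `q`, `x q`, `q ^ 2` with `x = z + 1` and
`q = z ^ 2 + z - 1` are known. For (a) we use the polynomial `((z - 1) (5 z + 8) / 6) ^ 2`: its mean value
is exactly `5/6`, and it is at least `1` at all rational integers `z ≠ 1`. (The distribution `z = -2, -1, 1`
with masses `1/3, 1/2, 1/6` shows that `5/6` cannot be improved if only these mean values are used.) For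
(b) we use `G = ((11 z ^ 2 + 9 z - 14) / 12) ^ 2` with the mean value `7/8`. The average of `G` over the
conjugates of `z(p)` is at least `1`, because of the inequality
`G ≥ 1 + c₀ log (z + 2) + c₁ log |z + 1| + c₂ log |z ^ 2 + z - 1| + c₃ log |z - 1|` for `z > -2`, where
`c₀ = 12/25`, `c₁ = 11/20`, `c₂ = 3/2`, `c₃ = 107/100`; the norms of the four arguments are nonzero rational
integers.
-/

set_option autoImplicit false

namespace Pool.Agent.Results.MP_ef641d_nt.MostlyIntegral

open Polynomial Pool.Agent.Helper51K9.SP Pool.Agent.Helper90K9.GD

theorem result {N : ℕ} (hN : 0 < N) (n : ℕ) :
    (∀ (f : GoodPrime N → ℂ[X]) (z : GoodPrime N → ℝ), IsLift n f z →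
      HasGaloisRepresentations n f ∨
        UpperDensityAtMost (fun p => ∃ m : ℤ, z p = m ∧ m ≠ 1) (5 / 6)) ∧
    (∀ (E : Type) [Field E] [NumberField E] (P : GoodPrime N → E[X]) (z : GoodPrime N → E),
      IsLiftFamily n P z →
      HasGaloisRepresentations n P ∨
        UpperDensityAtMost (fun p => IsIntegral ℤ (z p) ∧ z p ≠ 1 ∧ z p ^ 2 + z p - 1 ≠ 0)
          (7 / 8)) :=
  ⟨fun _ _ h => main_int hN h, fun _ _ _ _ _ h => main_field hN h⟩

end Pool.Agent.Results.MP_ef641d_nt.MostlyIntegral
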