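import Pool.Agent.Helper51K9.OT.Main

/-!
# Galois representations for cusp forms on `GL₄` of orthogonal type whose Satake polynomials have
rational integers as coefficients

Let `Π` be an algebraic cuspidal automorphic representation of `GL₄` over the rational numbers which is
of orthogonal type: `Π` is isomorphic to the twist of its contragredient by a character `χ`, and the
`L`-function of `Sym ^ 2 Π ⊗ χ ^ (-1)` has a pole. Then (up to automorphic inductions from quadratic
fields) `Π` is a tensor product `τ₀ ⊠ τ₁` of two cuspidal representations of `GL₂`, or, up to a twist, the
Asai lift of a cuspidal representation `τ₀` of `GL₂` over a quadratic field `K`. If the Archimedean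
parameter is zero (`τ₀`, `τ₁` Maass forms, which need not be algebraic themselves), the question is open
for `Π`, except that it is known if `τ₀`, `τ₁` belong to Galois representations.

**Theorem.** Let `F` be a subfield of the field of complex numbers whose real elements are rational and
which does not contain square roots of `-1`, `-2`, `-3` and `-5`: the field of rational numbers, or any
imaginary quadratic field with these four exceptions. Let `Π` be as above, unramified outside of `N` and
with central character of finite order, and suppose that the Satake polynomials of `τ₀ ⊠ τ₁` over `K` (for
`K = ℚ` these are the Satake polynomials of `Π`; for an Asai lift, `τ₁` being the conjugate of `τ₀`, they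
belong to the base change of `Π` to `K`) have as coefficients algebraic integers in `F`. Then

* either for all prime numbers `ℓ` and all embeddings of the field of complex numbers into an algebraic
  closure of the field of `ℓ`-adic numbers there is a continuous semisimple representation of the
  absolute Galois group of the field of rational numbers which corresponds to `Π` at ALL prime numbers
  not dividing `N`;
* or `τ₀` and `τ₁` look like conjugate icosahedral Galois representations: at all places `v` not
  dividing `N` the numbers `z_j(v) = β_j + β_j⁻¹`, `β_j` the quotient of the Satake parameters of `τ_j`, are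
  the same rational integer or the two roots of `z ^ 2 + z - 1`, and `β₀` has order `2`, `3`, `1`, `5`
  with Dirichlet densities `1/4`, `1/3`, `1/60`, `2/5`.

The same is proved for automorphic inductions of `τ₀ ⊠ τ₁` from arbitrary number fields `K`. Nothing is
assumed about Galois conjugates of `Π` or of the `τ_j`. For one form on `GL₂` with rational integers as
coefficients the result is due to Sarnak. Here the Satake polynomials determine the two adjoint traces
`z₀(v)`, `z₁(v)` only as an unordered pair, which may consist of conjugate quadratic irrationalities, so
neither `τ₀` nor `τ₁` needs to have eigenvalues in a fixed number field a priori.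

Idea of the proof. Let `A`, `B` be the traces of `Ad τ₀`, `Ad τ₁` at `v` and `s = A + B`, `p = A B`. These are
rational integers with `s ^ 2 ≥ 4 p`, and `1 + s + p = (A + 1) (B + 1)` is the absolute square of the trace
of `τ₀ ⊠ τ₁`; as this trace is in `F`, the number `1 + s + p` is not `2`, `3` or `5`. The polynomial

`G = 100 p ^ 2 - (148 s ^ 2 - 396 s + 56) p + 37 s ^ 4 - 134 s ^ 3 + 9 s ^ 2 + 180 s`

is nonnegative at all such pairs of integers. If the `τ_j` are not tetrahedral or octahedral, the known
Rankin-Selberg `L`-functions of `Ad τ_j` and `Sym ^ 4 τ_j` determine its mean value, which is `-2` if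
`Sym ^ 4 τ₀` and `Sym ^ 4 τ₁` are not isomorphic (up to the twists by central characters). So they are
isomorphic, and then the comparison of the Satake parameters and of their squares shows that
`z₀(v) = z₁(v)` is a rational integer, or `z₀(v)`, `z₁(v)` are the two roots of `z ^ 2 + z - 1`. In this
situation the known mean values determine the distribution completely.
-/

namespace Pool.Agent.Results.MP_ef641d_nt.OrthogonalType

open Pool.Agent.Helper51K9.SP Pool.Agent.Helper51K9.OT Polynomial

theorem result {K : Type} [Field K] [NumberField K] {N n : ℕ} (F : Subfield ℂ)
    (hF : ∀ x ∈ F, x.im = 0 → ∃ r : ℚ, x = r)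
    (hF' : ∀ x ∈ F, x ^ 2 ≠ -1 ∧ x ^ 2 ≠ -2 ∧ x ^ 2 ≠ -3 ∧ x ^ 2 ≠ -5)
    (P : GoodPrime N → ℂ[X]) (R : Place K N → ℂ[X]) (lam : Place K N → ℂ)
    (z : Fin 2 → Place K N → ℝ) (h : IsOrthogonalType n F P R lam z) :
    Pool.Agent.Helper51K9.OT.HasGaloisRepresentations n P ∨
      Pool.Agent.Helper51K9.OT.IsOfIcosahedralType z :=
  main hF hF' h

end Pool.Agent.Results.MP_ef641d_nt.OrthogonalType
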